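import Mathlib
import Pool.Agent.Q127.SD.F
import Pool.Agent.Q132.TS.G

/-!
# Orthogonality to deterministic sequences along given scales: Toeplitz sequences or smooth diffeomorphisms suffice

For every bounded `f : ℕ → ℂ` and every set `S` of scales the following are equivalent: the averages
`(1 / x) ∑_{n ≤ x} f(n) a(n)` tend to `0` along `x ∈ S`

* for all deterministic sequences `a` with values in the unit disc;
* for the deterministic sequences of the minimal systems;
* for the Toeplitz sequences `a` of zeros and ones of zero entropy, with periods powers of two, which vanish outside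
  one residue class modulo `2 ^ j` (`j` fixed);
* for the sequences of the `C^∞` diffeomorphisms of zero entropy of one fixed compact manifold `M` of dimension `d ≥ 3`
  which are the identity outside a fixed nonempty open set, with real `C^∞` observables.

So Q1 is equivalent to Q1 for each of these classes.
-/

set_option autoImplicit false

namespace Pool.Agent.Results.MP_43e0d7_nt.ToeplitzOrSmoothSuffice

open Finset Filter Topology Dynamics
open scoped Manifold ContDiff

/-- the averages `(1 / x) ∑_{n ≤ x} f(n) a(n)` tend to `0` as `x → ∞`, `x ∈ S` -/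
def Orthogonal (f : ℕ → ℂ) (S : Set ℕ) (a : ℕ → ℂ) : Prop :=
  Tendsto (fun x : ℕ => (1 / (x : ℂ)) * ∑ n ∈ Icc 1 x, f n * a n) (atTop ⊓ 𝓟 S) (𝓝 0)

/-- `a` is deterministic: `a n = F (T ^ n x)` with a continuous map `T` of zero topological entropy of a compact metric
space and a continuous `F` with values in the closed unit disc. -/
def Deterministic (a : ℕ → ℂ) : Prop :=
  ∃ (X : Type) (_ : MetricSpace X) (_ : CompactSpace X) (T : X → X) (F : X → ℂ) (x : X), Continuous T ∧
    coverEntropy T Set.univ = 0 ∧ Continuous F ∧ (∀ y, ‖F y‖ ≤ 1) ∧ ∀ n, a n = F (T^[n] x)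

/-- the same with a system all of whose forward orbits are dense -/
def MinimalDeterministic (a : ℕ → ℂ) : Prop :=
  ∃ (X : Type) (_ : MetricSpace X) (_ : CompactSpace X) (T : X → X) (F : X → ℂ) (x : X), Continuous T ∧
    coverEntropy T Set.univ = 0 ∧ (∀ y, Dense (Set.range (fun n => T^[n] y))) ∧ Continuous F ∧
    (∀ y, ‖F y‖ ≤ 1) ∧ ∀ n, a n = F (T^[n] x)

/-- `b` is a Toeplitz sequence (every place lies on an arithmetic progression on which `b` is constant) and all
the periods can be taken to be powers of two. -/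
def Toeplitz (b : ℕ → Bool) : Prop := ∀ n, ∃ j, ∀ m, b (n + m * 2 ^ j) = b n

/-- the number of different words of length `L` of `b` -/
noncomputable def complexity (b : ℕ → Bool) (L : ℕ) : ℕ :=
  (Set.range (fun n => fun i : Fin L => b (n + i))).ncard

/-- `log (complexity b L) = o(L)` -/
def ZeroEntropy (b : ℕ → Bool) : Prop :=
  Tendsto (fun L : ℕ => Real.log (complexity b L) / L) atTop (𝓝 0)

/-- `a` is a Toeplitz sequence of zeros and ones of zero entropy, with periods powers of two, which vanishes outside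
one residue class modulo `2 ^ j`. -/
def ToeplitzDeterministic (j : ℕ) (a : ℕ → ℂ) : Prop :=
  ∃ b : ℕ → Bool, Toeplitz b ∧ ZeroEntropy b ∧ (∃ r, ∀ n, b n = true → n % 2 ^ j = r) ∧
    ∀ n, a n = if b n then 1 else 0

/-- `a n = F (h ^ n m)` with a `C^∞` diffeomorphism `h` of zero topological entropy of the manifold `M`, the identity
outside `U`, and a `C^∞` function `F` on `M` with values in `[-1, 1]`. -/
def SmoothDeterministic (d : ℕ) (M : Type) [MetricSpace M] [ChartedSpace (EuclideanSpace ℝ (Fin d)) M] (U : Set M)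
    (a : ℕ → ℂ) : Prop :=
  ∃ (h : Diffeomorph (𝓡 d) (𝓡 d) M M ∞) (F : M → ℝ) (m : M), (∀ y, y ∉ U → h y = y) ∧
    coverEntropy h Set.univ = 0 ∧ ContMDiff (𝓡 d) 𝓘(ℝ, ℝ) ∞ F ∧ (∀ y, |F y| ≤ 1) ∧
    ∀ n, a n = ((F (h^[n] m) : ℝ) : ℂ)

/-- `f` is multiplicative with values in the closed unit disc -/
def MultiplicativeDisc (f : ℕ → ℂ) : Prop :=
  f 1 = 1 ∧ (∀ n, ‖f n‖ ≤ 1) ∧ ∀ m n, 0 < m → 0 < n → m.Coprime n → f (m * n) = f m * f n

/-- `∑_{p ≤ x} (1 - Re(f(p) conj(χ(p) p^{it}))) / p → ∞` for all Dirichlet characters `χ` and all real `t` -/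
def NonPretentious (f : ℕ → ℂ) : Prop :=
  ∀ (q : ℕ) [NeZero q] (χ : DirichletCharacter ℂ q) (t : ℝ),
    Tendsto (fun x : ℕ => ∑ p ∈ (Icc 1 x).filter Nat.Prime,
      (1 - (f p * starRingEnd ℂ (χ p * (p : ℂ) ^ ((t : ℂ) * Complex.I))).re) / (p : ℝ)) atTop atTop

open Classical in
/-- the upper logarithmic density of `S` is `1` -/
def UpperLogDensityOne (S : Set ℕ) : Prop :=
  limsup (fun x : ℕ => (1 / Real.log x) * ∑ n ∈ (Icc 1 x).filter (fun n => n ∈ S), 1 / (n : ℝ)) atTop = 1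

/-- Q1 for the sequences `a` of the class `C` -/
def Q1For (C : (ℕ → ℂ) → Prop) : Prop :=
  ∀ f : ℕ → ℂ, MultiplicativeDisc f → NonPretentious f → ∃ S : Set ℕ, UpperLogDensityOne S ∧
    ∀ a, C a → Orthogonal f S a

open Classical in
/-- the kernel of the averages along the scales of `S` -/
noncomputable def kap (f : ℕ → ℂ) (S : Set ℕ) (N n : ℕ) : ℂ := if N ∈ S then f n / (((N : ℕ) : ℝ) : ℂ) else 0

lemma kap_good {f : ℕ → ℂ} (hf : ∃ B : ℝ, ∀ n, ‖f n‖ ≤ B) (S : Set ℕ) : Pool.Agent.Q132.TS.Good (kap f S) := by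
  classical
  obtain ⟨B, hB⟩ := hf
  obtain ⟨C, hC, h⟩ := Pool.Agent.Q132.TS.good_cesaro' hB
  refine ⟨C, hC, fun D ε hε hD => ?_⟩
  filter_upwards [h D ε hε hD] with N hN
  refine le_trans (sum_le_sum (fun n _ => ?_)) hN
  by_cases hn : n ∈ D
  · rw [Set.indicator_of_mem hn, Set.indicator_of_mem hn]
    unfold kap
    split_ifs with h1
    · exact le_rfl
    · rw [norm_zero]; exact norm_nonneg _
  · rw [Set.indicator_of_notMem hn, Set.indicator_of_notMem hn]

lemma conv (f : ℕ → ℂ) (S : Set ℕ) (a : ℕ → ℂ) :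
    Tendsto (Pool.Agent.Q132.TS.Av (kap f S) a) atTop (𝓝 0) ↔ Orthogonal f S a := by
  classical
  have e : ∀ N ∈ S, Pool.Agent.Q132.TS.Av (kap f S) a N = (1 / (N : ℂ)) * ∑ n ∈ Icc 1 N, f n * a n := by
    intro N hN
    unfold Pool.Agent.Q132.TS.Av kap
    rw [mul_sum]
    apply sum_congr rfl
    intro n _
    rw [if_pos hN]
    push_cast
    ring
  have e0 : ∀ N, N ∉ S → Pool.Agent.Q132.TS.Av (kap f S) a N = 0 := by
    intro N hN
    unfold Pool.Agent.Q132.TS.Av kap
    apply sum_eq_zero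
    intro n _
    rw [if_neg hN, zero_mul]
  unfold Orthogonal
  rw [Metric.tendsto_nhds, Metric.tendsto_nhds]
  constructor
  · intro H ε hε
    rw [eventually_inf_principal]
    filter_upwards [H ε hε] with N hN hNS
    rw [e N hNS] at hN
    exact hN
  · intro H ε hε
    have := H ε hε
    rw [eventually_inf_principal] at this
    filter_upwards [this] with N hN
    by_cases hNS : N ∈ S
    · rw [e N hNS]; exact hN hNS
    · rw [e0 N hNS, dist_self]; exact hε

lemma scale {κ : ℕ → ℕ → ℂ} {g g' : ℕ → ℂ} (c : ℂ) (h : ∀ n, g n = c * g' n)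
    (H : Tendsto (Pool.Agent.Q132.TS.Av κ g') atTop (𝓝 0)) : Tendsto (Pool.Agent.Q132.TS.Av κ g) atTop (𝓝 0) := by
  have h1 : g = fun n => c * g' n := funext h
  have h2 := H.const_mul c
  rw [mul_zero] at h2
  refine h2.congr (fun N => ?_)
  rw [h1, Pool.Agent.Q132.TS.Av_smul]

lemma sar_iff (f : ℕ → ℂ) (S : Set ℕ) :
    Pool.Agent.Q132.TS.Sar (kap f S) False ↔ ∀ a, Deterministic a → Orthogonal f S a := by
  constructor
  · rintro H a ⟨X, _, _, T, F, x, h1, h2, h3, h4, h5⟩
    have : a = fun n => F (T^[n] x) := funext h5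
    rw [this, ← conv]
    exact H X T h1 h2 (fun h => h.elim) ⟨F, h3⟩ x
  · intro H X _ _ T hT hE _ F x
    have hB : 0 < ‖F‖ + 1 := by positivity
    have h1 := H (fun n => (1 / ((‖F‖ + 1 : ℝ) : ℂ)) * F (T^[n] x))
      ⟨X, inferInstance, inferInstance, T, fun y => (1 / ((‖F‖ + 1 : ℝ) : ℂ)) * F y, x, hT, hE,
        continuous_const.mul F.continuous, fun y => ?_, fun n => rfl⟩
    · rw [← conv] at h1
      refine scale ((‖F‖ + 1 : ℝ) : ℂ) (fun n => ?_) h1
      have : ((‖F‖ + 1 : ℝ) : ℂ) ≠ 0 := by exact_mod_cast hB.ne'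
      field_simp
    · rw [norm_mul, norm_div, norm_one, Complex.norm_real, Real.norm_of_nonneg hB.le]
      rw [one_div, inv_mul_le_iff₀ hB, mul_one]
      exact (F.norm_coe_le_norm y).trans (by linarith)

lemma sar_iff' (f : ℕ → ℂ) (S : Set ℕ) :
    Pool.Agent.Q132.TS.Sar (kap f S) True ↔ ∀ a, MinimalDeterministic a → Orthogonal f S a := by
  constructor
  · rintro H a ⟨X, _, _, T, F, x, h1, h2, hd, h3, h4, h5⟩
    have : a = fun n => F (T^[n] x) := funext h5
    rw [this, ← conv]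
    exact H X T h1 h2 (fun _ => hd) ⟨F, h3⟩ x
  · intro H X _ _ T hT hE hd F x
    have hB : 0 < ‖F‖ + 1 := by positivity
    have h1 := H (fun n => (1 / ((‖F‖ + 1 : ℝ) : ℂ)) * F (T^[n] x))
      ⟨X, inferInstance, inferInstance, T, fun y => (1 / ((‖F‖ + 1 : ℝ) : ℂ)) * F y, x, hT, hE, hd trivial,
        continuous_const.mul F.continuous, fun y => ?_, fun n => rfl⟩
    · rw [← conv] at h1
      refine scale ((‖F‖ + 1 : ℝ) : ℂ) (fun n => ?_) h1
      have : ((‖F‖ + 1 : ℝ) : ℂ) ≠ 0 := by exact_mod_cast hB.ne'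
      field_simp
    · rw [norm_mul, norm_div, norm_one, Complex.norm_real, Real.norm_of_nonneg hB.le]
      rw [one_div, inv_mul_le_iff₀ hB, mul_one]
      exact (F.norm_coe_le_norm y).trans (by linarith)

lemma main {f : ℕ → ℂ} (hf : ∃ B : ℝ, ∀ n, ‖f n‖ ≤ B) (S : Set ℕ) :
    ((∀ a, Deterministic a → Orthogonal f S a) ↔ ∀ a, MinimalDeterministic a → Orthogonal f S a) ∧
    (∀ j : ℕ, (∀ a, Deterministic a → Orthogonal f S a) ↔ ∀ a, ToeplitzDeterministic j a → Orthogonal f S a) ∧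
    ∀ d : ℕ, 3 ≤ d → ∀ (M : Type) [MetricSpace M] [CompactSpace M] [ChartedSpace (EuclideanSpace ℝ (Fin d)) M]
      [IsManifold (𝓡 d) ∞ M] (U : Set M), IsOpen U → U.Nonempty →
      ((∀ a, Deterministic a → Orthogonal f S a) ↔ ∀ a, SmoothDeterministic d M U a → Orthogonal f S a) := by
  have hκ := kap_good hf S
  refine ⟨?_, fun j => ?_, fun d hd M _ _ _ _ U hU hUn => ?_⟩
  · rw [← sar_iff, ← sar_iff']
    exact (Pool.Agent.Q132.TS.equivalences hκ 0).1
  · rw [← sar_iff, (Pool.Agent.Q132.TS.equivalences hκ j).2.1]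
    constructor
    · rintro H a ⟨b, h1, h2, h3, h4⟩
      have : a = Pool.Agent.Q132.TS.ind b := funext h4
      rw [this, ← conv]
      exact H b h1 ((Pool.Agent.Q132.TS.ze_iff (Set.toFinite _)).2 h2) h3
    · intro H b h1 h2 h3
      exact (conv _ _ _).2 (H _ ⟨b, h1, (Pool.Agent.Q132.TS.ze_iff (Set.toFinite _)).1 h2, h3, fun n => rfl⟩)
  · constructor
    · rintro H a ⟨h, F, m, _, h2, h3, h4, h5⟩
      exact H a ⟨M, inferInstance, inferInstance, h, fun y => ((F y : ℝ) : ℂ), m, h.continuous, h2,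
        Complex.continuous_ofReal.comp h3.continuous,
        fun y => by rw [Complex.norm_real]; exact h4 y, h5⟩
    · intro H
      rw [← sar_iff]
      apply Pool.Agent.Q132.CB.sar_of_ind hκ
      apply Pool.Agent.Q127.SD.of_manifold_diffeos (d := d) (M := M) hU hUn hκ
        (x := ⟨0, by omega⟩) (y := ⟨1, by omega⟩) (t := ⟨2, by omega⟩) (by simp) (by simp) (by simp)
      intro h hoff hE g m
      obtain ⟨B, hB⟩ := (isCompact_range (g.contMDiff.continuous)).isBounded.exists_norm_le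
      have hB' : 0 < |B| + 1 := by positivity
      have h1 := H (fun n => ((((|B| + 1)⁻¹ * g (h^[n] m) : ℝ)) : ℂ))
        ⟨h, fun y => (|B| + 1)⁻¹ * g y, m, hoff, hE, contMDiff_const.mul g.contMDiff, fun y => ?_, fun n => rfl⟩
      · rw [← conv] at h1
        refine scale ((|B| + 1 : ℝ) : ℂ) (fun n => ?_) h1
        have : ((|B| + 1 : ℝ) : ℂ) ≠ 0 := by exact_mod_cast hB'.ne'
        push_cast at this ⊢
        field_simp
      · rw [abs_mul, abs_inv, abs_of_pos hB', inv_mul_le_iff₀ hB', mul_one]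
        have h2 := hB (g y) ⟨y, rfl⟩
        rw [Real.norm_eq_abs] at h2
        linarith [le_abs_self B]

theorem result :
    (∀ f : ℕ → ℂ, (∃ B : ℝ, ∀ n, ‖f n‖ ≤ B) → ∀ S : Set ℕ,
      ((∀ a, Deterministic a → Orthogonal f S a) ↔ ∀ a, MinimalDeterministic a → Orthogonal f S a) ∧
      (∀ j : ℕ, (∀ a, Deterministic a → Orthogonal f S a) ↔ ∀ a, ToeplitzDeterministic j a → Orthogonal f S a) ∧
      ∀ d : ℕ, 3 ≤ d → ∀ (M : Type) [MetricSpace M] [CompactSpace M] [ChartedSpace (EuclideanSpace ℝ (Fin d)) M]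
        [IsManifold (𝓡 d) ∞ M] (U : Set M), IsOpen U → U.Nonempty →
        ((∀ a, Deterministic a → Orthogonal f S a) ↔ ∀ a, SmoothDeterministic d M U a → Orthogonal f S a)) ∧
    (Q1For Deterministic ↔ Q1For MinimalDeterministic) ∧
    (∀ j : ℕ, Q1For Deterministic ↔ Q1For (ToeplitzDeterministic j)) ∧
    ∀ d : ℕ, 3 ≤ d → ∀ (M : Type) [MetricSpace M] [CompactSpace M] [ChartedSpace (EuclideanSpace ℝ (Fin d)) M]
      [IsManifold (𝓡 d) ∞ M] (U : Set M), IsOpen U → U.Nonempty →
      (Q1For Deterministic ↔ Q1For (SmoothDeterministic d M U)) := by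
  have tr : ∀ C C' : (ℕ → ℂ) → Prop, (∀ f : ℕ → ℂ, (∃ B : ℝ, ∀ n, ‖f n‖ ≤ B) → ∀ S : Set ℕ,
      ((∀ a, C a → Orthogonal f S a) ↔ ∀ a, C' a → Orthogonal f S a)) → (Q1For C ↔ Q1For C') := by
    intro C C' h
    constructor
    · intro H f h1 h2
      obtain ⟨S, hS, h3⟩ := H f h1 h2
      exact ⟨S, hS, (h f ⟨1, h1.2.1⟩ S).1 h3⟩
    · intro H f h1 h2
      obtain ⟨S, hS, h3⟩ := H f h1 h2
      exact ⟨S, hS, (h f ⟨1, h1.2.1⟩ S).2 h3⟩
  refine ⟨fun f hf S => main hf S, tr _ _ (fun f hf S => (main hf S).1),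
    fun j => tr _ _ (fun f hf S => (main hf S).2.1 j),
    fun d hd M _ _ _ _ U hU hUn => tr _ _ (fun f hf S => (main hf S).2.2 d hd M U hU hUn)⟩

end Pool.Agent.Results.MP_43e0d7_nt.ToeplitzOrSmoothSuffice
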